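import Pool.Agent.H.MP_e9bccb.M
import Pool.Agent.H.MP_e9bccb.G

set_option autoImplicit false
open Set Filter Topology

namespace Pool.Agent.H.MP_1b39b5

open Pool.Agent.H.MP_e9bccb

theorem cz {Γ : Type} {u : Γ → ℝ} (h : ∀ n : ℕ, {γ | 1 / ((n : ℝ) + 1) ≤ |u γ|}.Countable) :
    {γ | u γ ≠ 0}.Countable := by
  refine (countable_iUnion h).mono fun γ hγ => ?_
  obtain ⟨n, hn⟩ := exists_nat_one_div_lt (abs_pos.2 hγ)
  exact mem_iUnion.2 ⟨n, hn.le⟩

theorem far {K Δ Γ : Type} [TopologicalSpace K] [CompactSpace K] [T2Space K] {h : K → Δ → ℝ}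
    (hc : Continuous h) (hi : Function.Injective h)
    (hs : ∀ x, ∀ ε : ℝ, 0 < ε → {γ | ε ≤ |h x γ|}.Finite) {π : K → Γ → ℝ} (pc : Continuous π)
    (ps : ∀ x, {γ | π x γ ≠ 0}.Countable) {δ : ℝ} (hδ : 0 < δ) :
    ∃ N : List ℕ → Set Γ, (∀ γ, ∃ n, γ ∈ N n) ∧ ∀ x n, {γ ∈ N n | δ ≤ |π x γ|}.Finite := by
  let H : K → Δ ⊕ Γ → ℝ := fun x => Sum.elim (h x) (π x)
  have c : Continuous H := continuous_pi fun θ => by
    rcases θ with θ | θ <;> simp only [H, Sum.elim_inl, Sum.elim_inr] <;> fun_prop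
  have i : Function.Injective H := fun x y e => hi (funext fun θ => congrFun e (.inl θ))
  obtain ⟨F, R, F1, hR⟩ := str c i (fun x => by
    refine (((cz fun n => (hs x _ Nat.one_div_pos_of_nat).countable).image Sum.inl).union
      ((ps x).image Sum.inr)).mono ?_
    rintro (θ | θ) k
    · exact Or.inl ⟨θ, k, rfl⟩
    · exact Or.inr ⟨θ, k, rfl⟩) continuous_id
  obtain ⟨N, N1, N2⟩ := ind2 F1 (fun T => ∃ N : List ℕ → Set Γ, (∀ γ, .inr γ ∈ T → ∃ n, γ ∈ N n) ∧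
    ∀ x n, {γ ∈ N n | δ ≤ |π x γ|}.Finite) (fun T hT => by
      obtain ⟨f, hf⟩ := countable_iff_exists_injOn.1 hT
      refine ⟨fun l => {γ | .inr γ ∈ T ∧ f (.inr γ) = l.length}, fun γ k =>
        ⟨List.replicate (f (.inr γ)) 0, k, by simp⟩, fun x n => Subsingleton.finite ?_⟩
      exact fun a ha b hb => Sum.inr_injective (hf ha.1.1 hb.1.1 (ha.1.2.trans hb.1.2.symm)))
    (fun W _ _ _ T m cl P => by
      choose N N1 N2 using P
      have mm : ∀ a, ⋃ b ∈ Iio a, T b ⊆ T a := fun a => iUnion₂_subset fun b hb => m (le_of_lt hb)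
      refine ⟨fun l => {γ | ∃ a, .inr γ ∈ T a ∧ .inr γ ∉ ⋃ b ∈ Iio a, T b ∧ γ ∈ N a l.tail ∧ ∀ x y,
        (∀ θ, |h x θ - h y θ| < 1 / ((l.headD 0 : ℕ) + 1 : ℝ)) → |π x γ - π y γ| < δ},
        fun γ k => ?_, fun x l => ?_⟩
      · obtain ⟨a, a1, a2⟩ := (wellFounded_lt (α := W)).has_min {a | Sum.inr γ ∈ T a} (mem_iUnion.1 k)
        obtain ⟨n, hn⟩ := N1 a γ a1
        obtain ⟨j, hj⟩ := mdl hc hi (φ := fun x => π x γ) (by fun_prop) hδ
        refine ⟨j :: n, a, a1, fun e => ?_, hn, hj⟩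
        obtain ⟨b, b1, b2⟩ := mem_iUnion₂.1 e
        exact a2 b b2 b1
      · refine (((Subsingleton.finite (s := {a : W | ¬ (Iio a).Nonempty}) fun a ha b hb =>
          le_antisymm (not_lt.1 fun e => ha ⟨b, e⟩) (not_lt.1 fun e => hb ⟨a, e⟩)).union
          ((hs x _ (Nat.one_div_pos_of_nat (n := l.headD 0))).biUnion (t := fun θ =>
            {a | .inl θ ∈ T a ∧ .inl θ ∉ ⋃ c ∈ Iio a, T c}) fun θ _ =>
            Subsingleton.finite fun a ha b hb => lev ha.1 ha.2 hb.1 hb.2)).biUnion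
          fun a _ => N2 a x l.tail).subset ?_
        rintro γ ⟨⟨a, a1, a2, a3, a4⟩, k⟩
        refine mem_iUnion₂.2 ⟨a, ?_, a3, k⟩
        by_cases e : (Iio a).Nonempty
        · have r1 := (hR _ (cl a)).1 x
          have r2 := (hR _ (ClU m cl e)).1 x
          have r3 : π (R (T a) x) γ = π x γ :=
            (congrFun r1 (.inr γ)).trans (indicator_of_mem a1 _)
          have r4 : π (R (⋃ b ∈ Iio a, T b) x) γ = 0 :=
            (congrFun r2 (.inr γ)).trans (indicator_of_notMem a2 _)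
          have r5 := mt (a4 (R (T a) x) (R (⋃ b ∈ Iio a, T b) x)) (by
            rw [r3, r4, sub_zero]
            exact k.not_gt)
          obtain ⟨θ, hθ⟩ := not_forall.1 r5
          have r6 : h (R (T a) x) θ ≠ h (R (⋃ b ∈ Iio a, T b) x) θ := fun e => hθ (by
            rw [e, sub_self, abs_zero]
            exact Nat.one_div_pos_of_nat)
          obtain ⟨b1, b2, b3⟩ := dif (h := H) (mm a) r1 r2 (θ := .inl θ) r6
          have b3 : h (R (T a) x) θ - h (R (⋃ b ∈ Iio a, T b) x) θ = h x θ := b3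
          rw [b3] at hθ
          exact Or.inr (mem_iUnion₂.2 ⟨θ, not_lt.1 hθ, b1, b2⟩)
        · exact Or.inl e) univ fun _ _ => subset_univ _
  exact ⟨N, fun γ => N1 γ trivial, N2⟩

theorem net {Y Γ : Type} (φ : Γ → Y → ℝ) (l : List Γ) (A : Set Y) : ∃ D ⊆ A, D.Countable ∧
    ∀ z ∈ A, ∀ ε : ℝ, 0 < ε → ∃ d ∈ D, ∀ γ ∈ l, |φ γ d - φ γ z| < ε := by
  obtain ⟨t, h1, h2, h3⟩ := (TopologicalSpace.IsSeparable.of_separableSpace
    ((fun y (i : Fin l.length) => φ l[i] y) '' A)).exists_countable_dense_subset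
  choose g g1 g2 using h1
  have := h2.to_subtype
  refine ⟨range fun y : t => g y.2, ?_, countable_range _, fun z hz ε h0 => ?_⟩
  · rintro _ ⟨y, rfl⟩
    exact g1 y.2
  · obtain ⟨v, v1, v2⟩ := Metric.mem_closure_iff.1 (h3 ⟨z, hz, rfl⟩) ε h0
    refine ⟨_, ⟨⟨v, v1⟩, rfl⟩, fun γ hγ => ?_⟩
    obtain ⟨i, rfl⟩ := List.get_of_mem hγ
    have := (dist_pi_lt_iff h0).1 v2 i
    rw [← g2 v1, dist_comm, Real.dist_eq] at this
    exact this

end Pool.Agent.H.MP_1b39b5
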