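import Pool.Agent.H.MP_1b39b5.A
import Pool.Agent.H.MP_11e589.B

set_option autoImplicit false
open Set Filter Topology

namespace Pool.Agent.H.MP_1b39b5

open Pool.Agent.H.MP_e9bccb

variable {Y : Type} [NormedAddCommGroup Y] [NormedSpace ℝ Y]

def UU (T : Set (Y × (Y →L[ℝ] ℝ))) : Submodule ℝ Y :=
  (Submodule.span ℝ (Prod.fst '' T)).topologicalClosure

theorem Uc (T : Set (Y × (Y →L[ℝ] ℝ))) : IsClosed (UU T : Set Y) :=
  Submodule.isClosed_topologicalClosure _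

theorem Um {T : Set (Y × (Y →L[ℝ] ℝ))} {y : Y} (h : y ∈ Prod.fst '' T) : y ∈ UU T :=
  Submodule.le_topologicalClosure _ (Submodule.subset_span h)

theorem Ul {T : Set (Y × (Y →L[ℝ] ℝ))} {V : Submodule ℝ Y} (hV : IsClosed (V : Set Y))
    (h : Prod.fst '' T ⊆ V) : UU T ≤ V :=
  Submodule.topologicalClosure_minimal _ (Submodule.span_le.2 h) hV

theorem Us {S T : Set (Y × (Y →L[ℝ] ℝ))} (h : S ⊆ T) : UU S ≤ UU T :=
  Ul (Uc T) fun _ k => Um (image_mono h k)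

theorem wU {α : Type} {U : Ultrafilter α} {y : α → Y} {w : Y}
    (h : ∀ g : Y →L[ℝ] ℝ, Tendsto (fun a => g (y a)) U (𝓝 (g w))) {V : Submodule ℝ Y}
    (hV : IsClosed (V : Set Y)) (k : ∀ᶠ a in U, y a ∈ V) : w ∈ V :=
  MP_16d9f2.ann hV fun f hf => tendsto_nhds_unique (h f) (tendsto_const_nhds.congr'
    (k.mono fun a ha => (hf _ ha).symm))

variable [CompleteSpace Y] {ι : Type} [Countable ι] {N : ι → Set Y}
  (hN : ∀ z, ∀ U : Ultrafilter Y, (∀ i, z ∈ N i → N i ∈ U) →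
    ∃ w, ∀ g : Y →L[ℝ] ℝ, Tendsto g U (𝓝 (g w)))

include hN

theorem prj : ∃ (F : List (Y × (Y →L[ℝ] ℝ)) → Set (Y × (Y →L[ℝ] ℝ)))
    (P : Set (Y × (Y →L[ℝ] ℝ)) → Y →L[ℝ] Y), (∀ l, (F l).Countable) ∧
    (∀ T, Cl F T → ∀ u ∈ UU T, (∀ p ∈ T, p.2 u = 0) → u = 0) ∧
    ∀ T, Cl F T ∨ T = ∅ → ∀ z, P T z ∈ UU T ∧ ∀ p ∈ T, p.2 (P T z) = p.2 z := by
  classical
  choose n n1 n2 using exists_dual_vector'' ℝ (E := Y)
  choose D D1 D2 D3 using net (fun (p : Y × (Y →L[ℝ] ℝ)) y => p.2 y)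
  let F : List (Y × (Y →L[ℝ] ℝ)) → Set (Y × (Y →L[ℝ] ℝ)) := fun l => {0} ∪
    (⋃ a ∈ {a | a ∈ l}, ⋃ b ∈ {a | a ∈ l}, range fun q : ℚ => ((q : ℝ) • a.1 + b.1, n a.1)) ∪
      ⋃ s : Finset ι, (fun d => (d, 0)) '' D l (⋂ i ∈ s, N i)
  have f0 : ∀ T, Cl F T → 0 ∈ T := fun T hT => hT [] (by simp [Ls]) (Or.inl (Or.inl rfl))
  have f1 : ∀ T, Cl F T → ∀ a ∈ T, ∀ b ∈ T, ∀ q : ℚ, ((q : ℝ) • a.1 + b.1, n a.1) ∈ T :=
    fun T hT a ha b hb q => hT [a, b] (List.forall_mem_cons.2 ⟨ha, by simpa using hb⟩) (Or.inl (Or.inr (mem_iUnion₂.2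
      ⟨a, by simp, mem_iUnion₂.2 ⟨b, by simp, q, rfl⟩⟩)))
  have nm : ∀ T, Cl F T → ∀ u ∈ UU T, ∀ z, (∀ g ∈ Prod.snd '' T, g u = g z) → ‖u‖ ≤ ‖z‖ := by
    intro T hT u hu z k
    obtain ⟨W, hW⟩ := MP_16d9f2.sub (Prod.fst '' T) ⟨0, f0 T hT, rfl⟩ (by
      rintro _ ⟨a, ha, rfl⟩ _ ⟨b, hb, rfl⟩
      exact ⟨_, f1 T hT a ha b hb 1, by simp⟩) (by
      rintro q _ ⟨a, ha, rfl⟩
      exact ⟨_, f1 T hT a ha 0 (f0 T hT) q, by simp⟩)
    have hu : u ∈ closure (Prod.fst '' T) :=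
      hW ▸ Ul (V := W) (hW ▸ isClosed_closure) (hW ▸ subset_closure) hu
    have : u ∈ {a | ‖a‖ ≤ ‖a - u‖ + ‖z‖} := closure_minimal (by
      rintro _ ⟨a, ha, rfl⟩
      have q : ∀ v, n a.1 v ≤ ‖v‖ := fun v => (le_abs_self _).trans (((n a.1).le_opNorm v).trans
        (mul_le_of_le_one_left (norm_nonneg _) (n1 _)))
      have := q (a.1 - u)
      rw [map_sub, n2, k (n a.1) ⟨_, f1 T hT a ha a ha 0, rfl⟩] at this
      exact (sub_le_iff_le_add.1 this).trans (add_le_add le_rfl (q z)))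
      (isClosed_le (by fun_prop) (by fun_prop)) hu
    simpa using this
  have e : ∀ T, Cl F T → ∀ z, ∃ u ∈ UU T, ∀ g ∈ Prod.snd '' T, g u = g z := by
    intro T hT z
    obtain ⟨U, U1, U2⟩ := fip (ι := ι ⊕ T × ℕ) (N := Sum.elim N fun c =>
      {y | |c.1.1.2 y - c.1.1.2 z| < 1 / ((c.2 : ℝ) + 1)}) (z := z) (G := 𝓟 (Prod.fst '' T))
      fun s hs => by
        obtain ⟨d, d1, d2⟩ := D3 (s.toRight.toList.map fun c => c.1.1) (⋂ i ∈ s.toLeft, N i) z
          (mem_iInter₂.2 fun i hi => mem_iInter₂.1 hs (.inl i) (by simpa using hi)) _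
          (Nat.one_div_pos_of_nat (n := s.toRight.sup Prod.snd))
        rw [inf_principal, principal_neBot_iff]
        refine ⟨d, ⟨(d, 0), hT (s.toRight.toList.map fun c => c.1.1) (fun p hp => ?_)
          (Or.inr (mem_iUnion.2 ⟨s.toLeft, d, d1, rfl⟩)), rfl⟩, mem_iInter₂.2 ?_⟩
        · obtain ⟨c, -, rfl⟩ := List.mem_map.1 hp
          exact c.1.2
        · rintro (i | c) hi
          · exact mem_iInter₂.1 (D1 _ _ d1) i (by simpa using hi)
          · have hi : c ∈ s.toRight := by simpa using hi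
            exact (d2 _ (List.mem_map.2 ⟨c, Finset.mem_toList.2 hi, rfl⟩)).trans_le
              (Nat.one_div_le_one_div (Finset.le_sup (f := Prod.snd) hi))
    obtain ⟨w, hw⟩ := hN z U fun i => U2 (.inl i)
    refine ⟨w, wU hw (Uc T) (mem_of_superset (le_principal_iff.1 U1) fun y => Um), ?_⟩
    rintro _ ⟨p, hp, rfl⟩
    refine sub_eq_zero.1 (abs_nonpos_iff.1 (not_lt.1 fun k => ?_))
    obtain ⟨m, hm⟩ := exists_nat_one_div_lt k
    refine hm.not_ge (le_of_tendsto ((hw p.2).sub_const _).abs (Eventually.mono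
      (p := fun y => |p.2 y - p.2 z| < _) (U2 (.inr (⟨p, hp⟩, m)) ?_) fun y hy => hy.le))
    show |p.2 z - p.2 z| < _
    rw [sub_self, abs_zero]
    exact Nat.one_div_pos_of_nat
  have : ∀ T, ∃ P : Y →L[ℝ] Y, Cl F T ∨ T = ∅ → ∀ z, P z ∈ UU T ∧ ∀ p ∈ T, p.2 (P z) = p.2 z := by
    intro T
    by_cases hT : Cl F T
    · obtain ⟨P, h, -⟩ := MP_11e589.proj (Uc T) _ (nm T hT) (K := univ) (by simp)
        fun z _ => e T hT z
      exact ⟨P, fun _ z => ⟨(h z).1, fun p hp => (h z).2 _ ⟨p, hp, rfl⟩⟩⟩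
    · exact ⟨0, fun k z => ⟨zero_mem _, by simp [k.resolve_left hT]⟩⟩
  choose P hP using this
  refine ⟨F, P, fun l => ((countable_singleton _).union ((List.finite_toSet l).countable.biUnion
    fun a _ => (List.finite_toSet l).countable.biUnion fun b _ => countable_range _)).union
    (countable_iUnion fun s => (D2 _ _).image _), fun T hT u hu k => norm_le_zero_iff.1 ?_, hP⟩
  simpa using nm T hT u hu 0 (by
    rintro _ ⟨p, hp, rfl⟩
    simpa using k p hp)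

theorem fam : ∃ S : Set Y, Dense (Submodule.span ℝ S : Set Y) ∧
    ∀ f : Y →L[ℝ] ℝ, {y ∈ S | f y ≠ 0}.Countable := by
  obtain ⟨F, P, F1, h1, h2⟩ := prj hN
  obtain ⟨S, -, S1, S2⟩ := ind2 F1 (fun T => ∃ S : Set Y, S ⊆ UU T ∧
    Prod.fst '' T ⊆ (Submodule.span ℝ S).topologicalClosure ∧
      ∀ f : Y →L[ℝ] ℝ, {y ∈ S | f y ≠ 0}.Countable) (fun T hT => ⟨Prod.fst '' T, fun _ => Um,
        fun _ => Um, fun f => (hT.image _).mono fun _ k => k.1⟩) (fun W _ _ _ T m cl Q => by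
      choose S S1 S2 S3 using Q
      have mm : ∀ a, ⋃ b ∈ Iio a, T b ⊆ T a := fun a => iUnion₂_subset fun b hb => m (le_of_lt hb)
      have p : ∀ a z, P (⋃ b ∈ Iio a, T b) z ∈ UU (⋃ b ∈ Iio a, T b) ∧
          ∀ p ∈ ⋃ b ∈ Iio a, T b, p.2 (P (⋃ b ∈ Iio a, T b) z) = p.2 z := fun a =>
        h2 _ ((Iio a).eq_empty_or_nonempty.elim (fun e => Or.inr (by simp [e]))
          fun e => Or.inl (ClU m cl e))
      have s : ∀ a, ∀ z ∈ S a, z - P (⋃ b ∈ Iio a, T b) z ∈ UU (T a) := fun a z hz =>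
        sub_mem (S1 a hz) (Us (mm a) (p a z).1)
      refine ⟨⋃ a, (fun z => z - P (⋃ b ∈ Iio a, T b) z) '' S a, iUnion_subset fun a => ?_, ?_,
        fun f => ?_⟩
      · rintro _ ⟨z, hz, rfl⟩
        exact Us (subset_iUnion T a) (s a z hz)
      · rw [image_iUnion]
        refine iUnion_subset fun a => ?_
        induction a using WellFoundedLT.induction with
        | ind a ih =>
          refine (S2 a).trans (Submodule.topologicalClosure_minimal _ (Submodule.span_le.2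
            fun z hz => ?_) (Submodule.isClosed_topologicalClosure _))
          rw [← sub_add_cancel z (P (⋃ b ∈ Iio a, T b) z)]
          refine add_mem (Submodule.le_topologicalClosure _ (Submodule.subset_span
            (mem_iUnion.2 ⟨a, z, hz, rfl⟩))) (Ul (Submodule.isClosed_topologicalClosure _) ?_
              (p a z).1)
          rw [image_iUnion₂]
          exact iUnion₂_subset ih
      obtain ⟨L, hL⟩ : ∃ L : Set W, L = {a | ∃ z ∈ S a, f (z - P (⋃ b ∈ Iio a, T b) z) ≠ 0} :=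
        ⟨_, rfl⟩
      by_cases c : L.Countable
      · refine (c.biUnion fun a _ => (S3 a (f - f.comp (P (⋃ b ∈ Iio a, T b)))).image
          fun z => z - P (⋃ b ∈ Iio a, T b) z).mono ?_
        rintro _ ⟨hy, k⟩
        obtain ⟨a, z, hz, rfl⟩ := mem_iUnion.1 hy
        exact mem_iUnion₂.2 ⟨a, hL ▸ ⟨z, hz, k⟩, z, ⟨hz, by simpa using k⟩, rfl⟩
      exfalso
      have : ∀ a, ∃ y ∈ UU (T a), (∀ p ∈ ⋃ b ∈ Iio a, T b, p.2 y = 0) ∧ (a ∈ L → f y = 1) := by
        intro a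
        by_cases ha : a ∈ L
        · obtain ⟨z, hz, k⟩ := hL ▸ ha
          refine ⟨(f (z - P (⋃ b ∈ Iio a, T b) z))⁻¹ • (z - P (⋃ b ∈ Iio a, T b) z),
            Submodule.smul_mem _ _ (s a z hz), fun q hq => ?_, fun _ => ?_⟩
          · rw [map_smul, map_sub q.2, (p a z).2 q hq, sub_self, smul_zero]
          · rw [map_smul, smul_eq_mul, inv_mul_cancel₀ k]
        · exact ⟨0, zero_mem _, by simp, fun k => (ha k).elim⟩
      choose y y1 y2 y3 using this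
      obtain ⟨a0, a1, a2⟩ : ∃ a ∈ L, ∀ t : Finset ι, a ∈ ⋂ i ∈ t, y ⁻¹' N i →
          (L ∩ ⋂ i ∈ t, y ⁻¹' N i).Infinite := by
        by_contra k
        push Not at k
        refine c ((countable_iUnion fun t : {t : Finset ι // (L ∩ ⋂ i ∈ t, y ⁻¹' N i).Finite} =>
          t.2.countable).mono fun a ha => ?_)
        obtain ⟨t, t1, t2⟩ := k a ha
        exact mem_iUnion.2 ⟨⟨t, t2⟩, ha, t1⟩
      obtain ⟨U, U1, U2⟩ := fip (N := fun i => y ⁻¹' N i) (z := a0) (G := cofinite ⊓ 𝓟 L)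
        fun t ht => by
          rw [inf_assoc, inf_principal]
          exact cofinite_inf_principal_neBot_iff.2 (a2 t ht)
      obtain ⟨w, hw⟩ := hN (y a0) (U.map y) U2
      have hw : ∀ g : Y →L[ℝ] ℝ, Tendsto (fun a => g (y a)) U (𝓝 (g w)) := hw
      have i1 : {b | Ioi b ∈ U} ∈ U := by
        by_contra k
        have k := Ultrafilter.compl_mem_iff_notMem.2 k
        obtain ⟨b, b1, b2⟩ := (wellFounded_lt (α := W)).has_min _ (U.nonempty_of_mem k)
        obtain ⟨a, c1, c2, c3⟩ := U.nonempty_of_mem (inter_mem k (inter_mem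
          (Ultrafilter.compl_mem_iff_notMem.2 b1)
          (U1.trans inf_le_left (finite_singleton b).compl_mem_cofinite)))
        exact b2 a c1 (lt_of_le_of_ne (not_lt.1 c2) c3)
      have w0 : w = 0 := h1 _ (ClU m cl (U.nonempty_of_mem i1)) w (wU hw (Uc _) (mem_of_superset i1
        fun a ha => Us (subset_biUnion_of_mem (u := T) ha) (y1 a))) fun q hq => by
          obtain ⟨b, b1, b2⟩ := mem_iUnion₂.1 hq
          exact tendsto_nhds_unique (hw q.2) (tendsto_const_nhds.congr' (mem_of_superset b1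
            fun a ha => (y2 a q (mem_iUnion₂.2 ⟨b, ha, b2⟩)).symm))
      have := tendsto_nhds_unique (hw f) (tendsto_const_nhds.congr' (mem_of_superset
        (le_principal_iff.1 (U1.trans inf_le_right)) fun a ha => (y3 a ha).symm))
      simp [w0] at this) univ fun _ _ => subset_univ _
  exact ⟨S, fun y => S1 ⟨(y, 0), trivial, rfl⟩, S2⟩

end Pool.Agent.H.MP_1b39b5
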