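import Pool.Agent.H.MP_1b39b5.B
import Pool.Agent.H.MP_e9afb0.B
import Pool.Agent.H.MP_f6c0ac.B

set_option autoImplicit false
open Set Filter Topology

namespace Pool.Agent.H.MP_1b39b5

open Pool.Agent.H.MP_e9bccb Pool.Agent.H.MP_e9afb0

variable {X Y Z : Type} [NormedAddCommGroup X] [NormedSpace ℝ X] [NormedAddCommGroup Y]
  [NormedSpace ℝ Y] [NormedAddCommGroup Z] [NormedSpace ℝ Z]

theorem wl [CompleteSpace Z] {α : Type} (U : Filter α) [U.NeBot] (t : α → Z) (a : ℕ → Z)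
    (s : ℕ → α → Z) (h1 : ∀ k : ℕ, ∀ᶠ x in U, ‖t x - s k x‖ ≤ 1 / ((k : ℝ) + 1))
    (h2 : ∀ k, ∀ g : Z →L[ℝ] ℝ, Tendsto (fun x => g (s k x)) U (𝓝 (g (a k)))) :
    ∃ w, ∀ g : Z →L[ℝ] ℝ, Tendsto (fun x => g (t x)) U (𝓝 (g w)) := by
  have c : ∀ j k : ℕ, ‖a j - a k‖ ≤ 1 / ((j : ℝ) + 1) + 1 / ((k : ℝ) + 1) := fun j k => by
    obtain ⟨g, g1, g2⟩ := exists_dual_vector'' ℝ (a j - a k)
    refine (show ‖a j - a k‖ = g (a j) - g (a k) by rw [← map_sub, g2]; rfl).trans_le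
      (le_of_tendsto ((h2 j g).sub (h2 k g)) (((h1 j).and (h1 k)).mono fun x hx => ?_))
    rw [← map_sub]
    refine ((le_abs_self _).trans (g.le_opNorm _)).trans
      ((mul_le_of_le_one_left (norm_nonneg _) g1).trans ?_)
    rw [show s j x - s k x = t x - s k x - (t x - s j x) by abel]
    linarith [norm_sub_le (t x - s k x) (t x - s j x), hx.1, hx.2]
  have t0 : Tendsto (fun n : ℕ => 1 / ((n : ℝ) + 1)) atTop (𝓝 0) :=
    tendsto_one_div_add_atTop_nhds_zero_nat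
  obtain ⟨w, hw⟩ := cauchySeq_tendsto_of_complete (cauchySeq_of_le_tendsto_0 (s := a)
    (fun n => 1 / ((n : ℝ) + 1) + 1 / ((n : ℝ) + 1)) (fun j k n hj hk => by
      rw [dist_eq_norm]
      exact (c j k).trans (add_le_add (Nat.one_div_le_one_div hj) (Nat.one_div_le_one_div hk)))
    (by simpa using t0.add t0))
  refine ⟨w, fun g => Metric.tendsto_nhds.2 fun ε hε => ?_⟩
  obtain ⟨k, k1, k2⟩ := (((t0.const_mul ‖g‖).eventually_lt_const (show ‖g‖ * 0 < ε / 3 by simpa using hε)).and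
    (Metric.tendsto_nhds.1 ((g.continuous.tendsto w).comp hw) _ (div_pos hε three_pos))).exists
  refine ((h1 k).and (Metric.tendsto_nhds.1 (h2 k g) _ (div_pos hε three_pos))).mono fun x hx => ?_
  have e := (g.le_opNorm (t x - s k x)).trans (mul_le_mul_of_nonneg_left hx.1 (norm_nonneg g))
  rw [map_sub, ← dist_eq_norm] at e
  have k2 : dist (g (a k)) (g w) < ε / 3 := k2
  linarith [dist_triangle4 (g (t x)) (g (s k x)) (g (a k)) (g w), hx.2]

theorem lsx [CompleteSpace Z] {K : Set Z} (k1 : IsCompact (toWeakSpace ℝ Z '' K))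
    (k2 : Dense (Submodule.span ℝ K : Set Z)) : ∃ N : ℕ × ℕ × ℕ → Set Z, ∀ z,
      ∀ U : Ultrafilter Z, (∀ i, z ∈ N i → N i ∈ U) →
        ∃ w, ∀ g : Z →L[ℝ] ℝ, Tendsto g U (𝓝 (g w)) := by
  refine ⟨fun i => {x | ∃ (c : Fin i.1 → ℝ) (v : Fin i.1 → K), (∀ j, c j ∈ Icc (-(i.2.1 : ℝ)) i.2.1) ∧
    ‖x - ∑ j, c j • (v j).1‖ ≤ 1 / ((i.2.2 : ℝ) + 1)}, fun z U hU => ?_⟩
  have : ∀ k : ℕ, ∃ (a : Z) (s : Z → Z), (∀ᶠ x in U, ‖x - s x‖ ≤ 1 / ((k : ℝ) + 1)) ∧
      ∀ g : Z →L[ℝ] ℝ, Tendsto (fun x => g (s x)) U (𝓝 (g a)) := fun k => by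
    obtain ⟨u, u1, u2⟩ := Metric.mem_closure_iff.1 (k2 z) _ (Nat.one_div_pos_of_nat (n := k))
    obtain ⟨n, c0, v0, rfl⟩ := Submodule.mem_span_set'.1 u1
    obtain ⟨m, hm⟩ := exists_nat_ge ‖c0‖
    have := hU (n, m, k) ⟨c0, v0, fun j => abs_le.1 ((norm_le_pi_norm c0 j).trans hm),
      by simpa [dist_eq_norm] using u2.le⟩
    obtain ⟨c, hc⟩ := Eventually.choice (l := U) (r := fun x (c : Fin n → ℝ) => ∃ v : Fin n → K,
      (∀ j, c j ∈ Icc (-(m : ℝ)) m) ∧ ‖x - ∑ j, c j • (v j).1‖ ≤ 1 / ((k : ℝ) + 1)) this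
    obtain ⟨v, hv⟩ := Eventually.choice hc
    choose a a1 a2 using fun j => MP_f6c0ac.wlim k1 (fun x => (v x j).1) U
      (.of_forall fun x => (v x j).2)
    choose b b1 b2 using fun j => isCompact_Icc.ultrafilter_le_nhds (U.map fun x => c x j)
      (le_principal_iff.2 (hv.mono fun x hx => hx.1 j))
    refine ⟨∑ j, b j • a j, fun x => ∑ j, c x j • (v x j).1, hv.mono fun x hx => hx.2, fun g => ?_⟩
    simp only [map_sum, map_smul]
    exact tendsto_finsetSum _ fun j _ => Tendsto.smul (b2 j) ((a2 j).1 g)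
  choose a s h1 h2 using this
  exact wl (↑U) (fun x => x) a s h1 h2

theorem bai {K : Type} [TopologicalSpace K] [CompactSpace K] {α : Type} {ψ : α → K → ℝ}
    (hψ : ∀ x, Continuous (ψ x)) (H : α → Y) (h : ∀ f : Y →L[ℝ] ℝ, ∃ s : Finset K, ∃ δ > 0,
      ∀ x, (∀ g ∈ s, |ψ x g| < δ) → |f (H x)| ≤ 1) : ∃ δ > 0, ∃ C > 0, ∀ f : Y →L[ℝ] ℝ, ‖f‖ ≤ 1 →
      ∃ s : Set K, s.Finite ∧ ∀ x, (∀ g ∈ s, |ψ x g| < δ) → |f (H x)| ≤ C := by
  obtain ⟨⟨n, m⟩, f0, h0⟩ := nonempty_interior_of_iUnion_of_closed (f := fun i : ℕ × ℕ =>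
    Prod.snd '' {p : (Fin i.1 → K) × (Y →L[ℝ] ℝ) | ∀ x,
      (∀ j, |ψ x (p.1 j)| < 1 / ((i.2 : ℝ) + 1)) → |p.2 (H x)| ≤ 1})
    (fun i => isClosedMap_snd_of_compactSpace _ (by
      rw [ofPred_forall]
      refine isClosed_iInter fun x => isClosed_imp ?_ (isClosed_le (by fun_prop) continuous_const)
      rw [ofPred_forall]
      exact isOpen_iInter_of_finite fun j => isOpen_lt (by fun_prop) continuous_const))
    (eq_univ_of_forall fun f => by
      obtain ⟨s, δ, δ0, k⟩ := h f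
      obtain ⟨m, hm⟩ := exists_nat_one_div_lt δ0
      refine mem_iUnion.2 ⟨(s.card, m), (fun j => s.equivFin.symm j, f), fun x hx => k x
        fun g hg => lt_trans ?_ hm, rfl⟩
      simpa using hx (s.equivFin ⟨g, hg⟩))
  obtain ⟨r, r0, hr⟩ := Metric.mem_nhds_iff.1 (mem_interior_iff_mem_nhds.1 h0)
  refine ⟨1 / ((m : ℝ) + 1), Nat.one_div_pos_of_nat, 4 / r, by positivity, fun f hf => ?_⟩
  obtain ⟨⟨g, _⟩, g1, rfl⟩ := hr (Metric.mem_ball_self r0)
  rename_i f0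
  obtain ⟨⟨g', _⟩, g2, g3⟩ := hr (show f0 + (r / 2) • f ∈ _ by
    rw [mem_ball_iff_norm, add_sub_cancel_left, norm_smul, Real.norm_of_nonneg (half_pos r0).le]
    nlinarith)
  obtain rfl : _ = f0 + (r / 2) • f := g3
  refine ⟨range g ∪ range g', (finite_range g).union (finite_range g'), fun x hx => ?_⟩
  have a1 := abs_le.1 (g1 x fun j => hx _ (Or.inl ⟨j, rfl⟩))
  have a2 := abs_le.1 (g2 x fun j => hx _ (Or.inr ⟨j, rfl⟩))
  simp only [_root_.add_apply, _root_.smul_apply, smul_eq_mul] at a1 a2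
  rw [le_div_iff₀ r0, ← abs_of_pos r0, ← abs_mul, abs_le]
  constructor <;> linarith [a1.1, a1.2, a2.1, a2.2]

theorem tr3 (m : ℕ) (s : ℝ) : |tr m s| ≤ |s| ∧ |tr m s - s| ≤ 1 / ((m : ℝ) + 1) := by
  have : (0 : ℝ) < 1 / ((m : ℝ) + 1) := Nat.one_div_pos_of_nat
  simp only [tr, ContinuousMap.coe_mk]
  generalize 1 / ((m : ℝ) + 1) = d at *
  rcases max_cases (-d) (min s d) with b | b <;> rcases min_cases s d with c | c <;>
    constructor <;> rw [abs_le] <;> constructor <;> cases abs_cases s <;> linarith [b.1, b.2, c.1, c.2]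

theorem wcp {L I : Type} [TopologicalSpace L] [CompactSpace L] [T2Space L] (j : Z →ₗ[ℝ] C(L, ℝ))
    (hj : ∀ v, ‖j v‖ = ‖v‖) (u : I → Z) (u1 : ∀ p, ‖j (u p)‖ ≤ 1)
    (u2 : ∀ k, Tendsto (fun p => j (u p) k) cofinite (𝓝 0)) :
    IsCompact (toWeakSpace ℝ Z '' insert 0 (range u)) := by
  have a : ∀ (φ : Z →L[ℝ] ℝ) (δ : ℝ), 0 < δ → ∀ᶠ p in cofinite, φ (u p) < δ := fun φ δ hδ => by
    by_contra hi
    let q := Set.Infinite.natEmbedding _ hi
    obtain ⟨n, hn⟩ := MP_11e589.bct j ((‖φ‖ + 1)⁻¹ • φ.toLinearMap) (fun v => by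
      show (‖φ‖ + 1)⁻¹ * φ v ≤ _
      rw [hj, inv_mul_le_iff₀ (by positivity)]
      nlinarith [(le_abs_self _).trans (φ.le_opNorm v), norm_nonneg v])
      (fun n => u (q n)) (δ := (‖φ‖ + 1)⁻¹ * δ) (fun n => u1 _)
      (fun k => (u2 k).comp (Nat.cofinite_eq_atTop ▸
        (Subtype.val_injective.comp q.injective).tendsto_cofinite)) (by positivity)
    exact (q n).2 (lt_of_mul_lt_mul_left (a := (‖φ‖ + 1)⁻¹) hn (by positivity))
  have b : Tendsto (fun p => toWeakSpace ℝ Z (u p)) cofinite (𝓝 (toWeakSpace ℝ Z 0)) := by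
    have : IsInducing fun (v : WeakSpace ℝ Z) (φ : Z →L[ℝ] ℝ) =>
      (topDualPairing ℝ Z).flip v φ := ⟨rfl⟩
    refine this.tendsto_nhds_iff.2 (tendsto_pi_nhds.2 fun φ => ?_)
    show Tendsto (fun p => φ (u p)) _ (𝓝 (φ 0))
    rw [map_zero]
    refine tendsto_order.2 ⟨fun δ hδ => (a (-φ) (-δ) (neg_pos.2 hδ)).mono fun k hk => ?_, a φ⟩
    simpa using hk
  rw [image_insert_eq, ← range_comp]
  exact b.isCompact_insert_range_of_cofinite

theorem wcg {S : Set Y} (hS : Dense (Submodule.span ℝ S : Set Y)) {N : ℕ × List ℕ → Set S}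
    (h1 : ∀ m y, ∃ l, y ∈ N (m, l)) (h2 : ∀ i, ∀ f : Y →L[ℝ] ℝ, ‖f‖ ≤ 1 →
      {y ∈ N i | 1 / ((i.1 : ℝ) + 1) ≤ |f y|}.Finite) :
    ∃ (Z : Type) (_ : NormedAddCommGroup Z) (_ : NormedSpace ℝ Z) (_ : CompleteSpace Z),
      (∃ K : Set Z, IsCompact (toWeakSpace ℝ Z '' K) ∧ Dense (Submodule.span ℝ K : Set Z)) ∧
        ∃ T : Y →L[ℝ] Z, ∃ c : ℝ, 0 < c ∧ ∀ y : Y, c * ‖y‖ ≤ ‖T y‖ := by
  let j : Y →L[ℝ] C(KK Y, ℝ) := LinearMap.mkContinuous
    ⟨⟨fun y => ⟨fun k => k.1 y, cont y⟩, fun a b => by ext; simp⟩, fun a b => by ext; simp⟩ 1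
    fun y => (ContinuousMap.norm_le _ (by positivity)).2 fun k => by simpa using k.2 y
  have jj : ∀ y k, j y k = k.1 y := fun _ _ => rfl
  obtain ⟨e, he⟩ := exists_injective_nat (ℕ × List ℕ)
  let u : (Σ i, N i) → C(KK Y, ℝ) := fun p =>
    (1 / ((e p.1 : ℝ) + 1) / (‖p.2.1.1‖ + 1)) • (tr p.1.1).comp (j p.2.1.1)
  have u1 : ∀ p k, |u p k| ≤ 1 / ((e p.1 : ℝ) + 1) := fun p k => by
    show |_ * tr _ (k.1 _)| ≤ _
    rw [abs_mul, abs_of_pos (by positivity), div_mul_eq_mul_div, div_le_iff₀ (by positivity)]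
    gcongr
    linarith [(tr3 p.1.1 (k.1 p.2.1.1)).1, k.2 p.2.1.1]
  have u2 : ∀ k, Tendsto (fun p => u p k) cofinite (𝓝 0) := fun k =>
    Metric.tendsto_nhds.2 fun ε hε => by
      obtain ⟨m, hm⟩ := exists_nat_one_div_lt hε
      refine ((((finite_Iio m).preimage he.injOn).biUnion fun i _ => ((h2 i
        (WeakDual.toStrongDual k.1) (ContinuousLinearMap.opNorm_le_bound _ zero_le_one fun y => by
          simpa using k.2 y)).preimage (f := fun y : N i => y.1)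
            Subtype.val_injective.injOn).image (Sigma.mk i))).subset fun p hp => ?_
      have hp : ε ≤ |u p k| := by simpa using hp
      refine mem_iUnion₂.2 ⟨p.1, not_le.1 fun c => (hp.trans (u1 p k)).not_gt
        ((Nat.one_div_le_one_div c).trans_lt hm), p.2, ⟨p.2.2, not_lt.1 fun c => ?_⟩, rfl⟩
      have : u p k = 0 := mul_eq_zero_of_right _ (tr1 c)
      rw [this, abs_zero] at hp
      exact hε.not_ge hp
  let W := (Submodule.span ℝ (range u)).topologicalClosure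
  have uW : ∀ p, u p ∈ W := fun p =>
    Submodule.le_topologicalClosure _ (Submodule.subset_span ⟨p, rfl⟩)
  have cW : IsClosed (W : Set C(KK Y, ℝ)) := Submodule.isClosed_topologicalClosure _
  have jW : ∀ y, j y ∈ W := fun y => closure_minimal (s := (Submodule.span ℝ S : Set Y))
    (t := W.comap j.toLinearMap) (Submodule.span_le.2 fun y hy => by
      choose l hl using fun m => h1 m ⟨y, hy⟩
      show j y ∈ W
      refine cW.mem_of_tendsto (f := fun m => (tr m).comp (j y)) (b := atTop)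
        (tendsto_iff_norm_sub_tendsto_zero.2 (squeeze_zero (fun _ => norm_nonneg _) (fun m =>
          (ContinuousMap.norm_le _ (by positivity)).2 fun k => (tr3 m _).2)
          tendsto_one_div_add_atTop_nhds_zero_nat)) (.of_forall fun m => ?_)
      exact (W.smul_mem_iff (by positivity)).1 (uW ⟨(m, l m), _, hl m⟩))
    (cW.preimage j.continuous) (hS y)
  have := cW.completeSpace_coe
  refine ⟨W, inferInstance, inferInstance, this, ⟨insert 0 (range fun p => ⟨u p, uW p⟩), ?_, ?_⟩,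
    j.codRestrict W jW, 1, one_pos, fun y => ?_⟩
  · exact wcp W.subtype (fun _ => rfl) _ (fun p => (ContinuousMap.norm_le _ zero_le_one).2
      fun k => (u1 _ k).trans (by
        rw [div_le_one (by positivity)]
        simp)) u2
  · refine Subtype.dense_iff.2 (closure_mono ?_)
    refine le_trans (Submodule.span_le.2 ?_) (le_of_eq (Submodule.map_coe W.subtype _))
    rintro _ ⟨p, rfl⟩
    exact ⟨_, Submodule.subset_span (Or.inr ⟨p, rfl⟩), rfl⟩
  · obtain ⟨g, g1, g2⟩ := exists_dual_vector'' ℝ y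
    have := (j y).norm_coe_le_norm ⟨StrongDual.toWeakDual g, fun x => (g.le_opNorm x).trans
      (mul_le_of_le_one_left (norm_nonneg _) g1)⟩
    rw [one_mul]
    exact (show ‖y‖ = g y from g2.symm).trans_le ((le_abs_self _).trans this)

end Pool.Agent.H.MP_1b39b5
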