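import Pool.Agent.H.MP_1b39b5.C
import Pool.Agent.H.MP_6ac155.B

set_option autoImplicit false
open Set Filter Topology

namespace Pool.Agent.H.MP_1b39b5

open Pool.Agent.H.MP_e9bccb Pool.Agent.H.MP_e9afb0

variable {X Y Z : Type} [NormedAddCommGroup X] [NormedSpace ℝ X] [NormedAddCommGroup Y]
  [NormedSpace ℝ Y] [NormedAddCommGroup Z] [NormedSpace ℝ Z]

theorem tw {α : Type} {U : Filter α} {t : α → X} {w : X} :
    Tendsto (fun a => toWeakSpace ℝ X (t a)) U (𝓝 (toWeakSpace ℝ X w)) ↔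
      ∀ g : X →L[ℝ] ℝ, Tendsto (fun a => g (t a)) U (𝓝 (g w)) :=
  (show IsInducing fun (v : WeakSpace ℝ X) (φ : X →L[ℝ] ℝ) =>
    (topDualPairing ℝ X).flip v φ from ⟨rfl⟩).tendsto_nhds_iff.trans tendsto_pi_nhds

theorem cw {h : WeakSpace ℝ X → WeakSpace ℝ Y} (hc : Continuous h) (x : X) (f : Y →L[ℝ] ℝ) {ε : ℝ}
    (hε : 0 < ε) : ∃ (I : Finset (X →L[ℝ] ℝ)) (δ : ℝ), 0 < δ ∧ ∀ y, (∀ g ∈ I, |g (y - x)| < δ) →
      |f ((toWeakSpace ℝ Y).symm (h (toWeakSpace ℝ X y)) -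
        (toWeakSpace ℝ Y).symm (h (toWeakSpace ℝ X x)))| < ε := by
  have c : Continuous fun v => f ((toWeakSpace ℝ Y).symm (h v)) :=
    (WeakBilin.eval_continuous (topDualPairing ℝ Y).flip f).comp hc
  simp only [map_sub]
  have o : IsOpen {v | |f ((toWeakSpace ℝ Y).symm (h v)) -
    f ((toWeakSpace ℝ Y).symm (h (toWeakSpace ℝ X x)))| < ε} :=
    isOpen_lt (c.sub continuous_const).abs continuous_const
  exact MP_6ac155.nb (fun (v : WeakSpace ℝ X) (φ : X →L[ℝ] ℝ) => φ ((toWeakSpace ℝ X).symm v)) o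
    (x := toWeakSpace ℝ X x) (show |f _ - f _| < ε by rwa [sub_self, abs_zero])

theorem kk (g : Z →L[ℝ] ℝ) : ∃ (k : KK Z) (c : ℝ), 0 < c ∧ ∀ z, g z = c * k.1 z :=
  ⟨⟨StrongDual.toWeakDual ((‖g‖ + 1)⁻¹ • g), fun z => by
    show |(‖g‖ + 1)⁻¹ * g z| ≤ _
    rw [abs_mul, abs_of_pos (by positivity), inv_mul_le_iff₀ (by positivity)]
    nlinarith [g.le_opNorm z, norm_nonneg z, Real.norm_eq_abs (g z)]⟩, ‖g‖ + 1, by positivity,
    fun z => (mul_inv_cancel_left₀ (by positivity) _).symm⟩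

theorem main [CompleteSpace X] [CompleteSpace Y] [CompleteSpace Z] {K : Set Z}
    (k1 : IsCompact (toWeakSpace ℝ Z '' K)) (k2 : Dense (Submodule.span ℝ K : Set Z))
    (T : X →L[ℝ] Z) {c : ℝ} (c0 : 0 < c) (hT : ∀ x, c * ‖x‖ ≤ ‖T x‖)
    (e : WeakSpace ℝ X ≃ₜ WeakSpace ℝ Y) :
    ∃ (Z : Type) (_ : NormedAddCommGroup Z) (_ : NormedSpace ℝ Z) (_ : CompleteSpace Z),
      (∃ K : Set Z, IsCompact (toWeakSpace ℝ Z '' K) ∧ Dense (Submodule.span ℝ K : Set Z)) ∧
        ∃ T : Y →L[ℝ] Z, ∃ c : ℝ, 0 < c ∧ ∀ y : Y, c * ‖y‖ ≤ ‖T y‖ := by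
  classical
  have an : AntilipschitzWith (c⁻¹).toNNReal T := T.antilipschitz_of_bound fun x => by
    rw [Real.coe_toNNReal _ (inv_pos.2 c0).le, le_inv_mul_iff₀ c0]
    exact hT x
  have cl := an.isClosed_range T.uniformContinuous
  have ex : ∀ g : X →L[ℝ] ℝ, ∃ g' : Z →L[ℝ] ℝ, ∀ x, g' (T x) = g x := fun g => by
    obtain ⟨g', h, -⟩ := exists_extension_norm_eq T.range
      (g.comp (T.equivRange an.injective cl).symm.toContinuousLinearMap)
    exact ⟨g', fun x => (h ⟨T x, x, rfl⟩).trans (congrArg g (T.equivRange_symm_apply _ _ x))⟩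
  obtain ⟨H, hH⟩ : ∃ H : X → Y, ∀ x, H x = (toWeakSpace ℝ Y).symm (e (toWeakSpace ℝ X x)) :=
    ⟨_, fun _ => rfl⟩
  obtain ⟨G, hG⟩ : ∃ G : Y → X, ∀ y, G y = (toWeakSpace ℝ X).symm (e.symm (toWeakSpace ℝ Y y)) :=
    ⟨_, fun _ => rfl⟩
  have hg : ∀ y, H (G y) = y := fun y => by simp [hH, hG]
  obtain ⟨N, hN⟩ := lsx k1 k2
  obtain ⟨S, s1, s2⟩ := fam (N := fun i => (fun y => T (G y)) ⁻¹' N i) fun z U k => by
    obtain ⟨w, hw⟩ := hN _ (U.map fun y => T (G y)) k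
    obtain ⟨x, rfl⟩ : w ∈ T.range := wU (y := fun y => T (G y)) hw cl (.of_forall fun y => ⟨_, rfl⟩)
    have := (e.continuous.tendsto _).comp (tw (t := G) (U := U) (w := x).2 fun g => by
      obtain ⟨g', h⟩ := ex g
      simp only [← h]
      exact hw g')
    refine ⟨H x, tw.1 ?_⟩
    simpa [hG, hH, Function.comp_def] using this
  obtain ⟨Δ, h, h1, -, h2⟩ := al (X := KK Z) (B := fun _ => (fun z k => k.1 z) '' K) (fun _ => by
      have := k1.image (f := fun z (k : KK Z) => k.1 ((toWeakSpace ℝ Z).symm z)) (continuous_pi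
        fun k => WeakBilin.eval_continuous (topDualPairing ℝ Z).flip (WeakDual.toStrongDual k.1))
      rwa [image_image] at this) (fun _ => forall_mem_image.2 fun z _ => cont z)
    fun x y k => Subtype.ext (ContinuousLinearMap.ext_on k2 fun z hz => k 0 _ ⟨z, hz, rfl⟩)
  obtain ⟨δ, δ0, C, C0, hC⟩ := bai (ψ := fun x (k : KK Z) => k.1 (T (x - G 0))) (fun _ => cont _) H
    fun f => by
      obtain ⟨I, δ, δ0, k⟩ := cw e.continuous (G 0) f one_pos
      choose g g1 using ex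
      choose u a a0 a1 using kk (Z := Z)
      obtain ⟨b, hb⟩ := (I.finite_toSet.image fun p => a (g p)).bddAbove
      refine ⟨I.image fun p => u (g p), δ / (|b| + 1), by positivity, fun x hx => ?_⟩
      have := k x fun p hp => by
        have := hx _ (Finset.mem_image_of_mem _ hp)
        rw [lt_div_iff₀ (by positivity)] at this
        rw [← g1, a1, abs_mul, abs_of_pos (a0 _)]
        nlinarith [hb ⟨p, hp, rfl⟩, le_abs_self b, abs_nonneg ((u (g p)).1 (T (x - G 0)))]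
      rw [← hH, ← hH, hg, sub_zero] at this
      exact this.le
  have : ∀ m : ℕ, ∃ N : List ℕ → Set S, (∀ y, ∃ l, y ∈ N l) ∧ ∀ l, ∀ f : Y →L[ℝ] ℝ, ‖f‖ ≤ 1 →
      {y ∈ N l | 1 / ((m : ℝ) + 1) ≤ |f y|}.Finite := fun m => by
    obtain ⟨N, n1, n2⟩ := far h1.continuous h1.injective h2 (π := fun (k : KK Z) (y : S) =>
      k.1 (T (G ((2 * C * (m + 1)) • y.1) - G 0))) (continuous_pi fun _ => cont _)
      (fun k => cz fun n => by
        obtain ⟨I, η, η0, a⟩ := cw e.symm.continuous 0 ((WeakDual.toStrongDual k.1).comp T)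
          (Nat.one_div_pos_of_nat (n := n))
        refine (I.countable_toSet.biUnion fun f _ => (s2 f).preimage_of_injOn
          (f := fun y : S => y.1) Subtype.val_injective.injOn).mono fun y hy => by_contra fun b => ?_
        refine (a ((2 * C * (m + 1)) • y.1) fun f hf => ?_).not_ge (by rwa [← hG, ← hG])
        have : f y = 0 := by_contra fun d => b (mem_iUnion₂.2 ⟨f, hf, y.2, d⟩)
        simpa [this] using η0) δ0
    refine ⟨N, n1, fun l f hf => ?_⟩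
    obtain ⟨s, a1, a2⟩ := hC f hf
    refine (a1.biUnion fun k _ => n2 k l).subset fun y hy => by_contra fun b => ?_
    have := a2 (G ((2 * C * (m + 1)) • y.1)) fun k hk => not_le.1 fun d =>
      b (mem_iUnion₂.2 ⟨k, hk, hy.1, d⟩)
    have d := hy.2
    rw [hg, map_smul, smul_eq_mul, abs_mul, abs_of_pos (by positivity)] at this
    rw [div_le_iff₀ (by positivity)] at d
    nlinarith
  choose N n1 n2 using this
  exact wcg s1 (N := fun i => N i.1 i.2) n1 fun i => n2 i.1 i.2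

end Pool.Agent.H.MP_1b39b5
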